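import Pool.Agent.helper69.SN.SpecA
import Pool.Agent.helper35.SC.LA1

/-! Row sn:aCNJ (helper87): covariance of `Ph` under congruence. -/

set_option linter.unusedVariables false

namespace Pool.Agent.helper69.SN

open Pool.Agent.helper83.SC

/-- Mixed discriminants under congruence. -/
theorem CNJ_mD {m : ℕ} (g : Mat m) (M : Fin m → Mat m) :
    mD (fun j => g * M j * g.transpose) = g.det ^ 2 * mD M := by
  have hm : (m.factorial : ℝ) ≠ 0 := by exact_mod_cast Nat.factorial_ne_zero m
  have h1 := mD_polar_of (0 : Mat m) (fun j => g * M j * g.transpose)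
  have h2 := mD_polar_of (0 : Mat m) M
  have h3 : ∑ J : Finset (Fin m), (-1 : ℝ) ^ (m - J.card) *
      (0 + ∑ j ∈ J, g * M j * g.transpose).det
      = g.det ^ 2 * ∑ J : Finset (Fin m), (-1 : ℝ) ^ (m - J.card) * (0 + ∑ j ∈ J, M j).det := by
    rw [Finset.mul_sum]
    refine Finset.sum_congr rfl fun J _ => ?_
    have : (0 + ∑ j ∈ J, g * M j * g.transpose : Mat m)
        = g * (0 + ∑ j ∈ J, M j) * g.transpose := by
      rw [zero_add, zero_add, Finset.mul_sum, Finset.sum_mul]
    rw [this, Matrix.det_mul, Matrix.det_mul, Matrix.det_transpose]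
    ring
  rw [h3, h2] at h1
  have h4 : (m.factorial : ℝ) * mD (fun j => g * M j * g.transpose)
      = (m.factorial : ℝ) * (g.det ^ 2 * mD M) := by
    rw [← h1]; ring
  exact mul_left_cancel₀ hm h4

theorem CNJ_slot {m n : ℕ} (B : Fin n → Mat m) (T : Finset (Fin n)) (g M : Mat m) :
    slot (fun i => g * B i * g.transpose) T (g * M * g.transpose)
      = fun j => g * slot B T M j * g.transpose := by
  funext j
  unfold slot
  split_ifs <;> rfl

theorem aCNJ : aCNJ_stmt := by
  intro m n B g M
  unfold Ph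
  rw [Finset.mul_sum]
  refine Finset.sum_congr rfl fun T _ => ?_
  rw [CNJ_slot, CNJ_mD]
  ring

end Pool.Agent.helper69.SN
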