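import Pool.Agent.helper40.SN.SpecD
import Pool.Agent.helper85.SN.dCOM

/-!
Row sn:dPOT (project sn, MP_d2d7b9), helper87: a lower bound for `w (0)` gives potentials.
-/

open scoped Pointwise ContDiff
open MeasureTheory Set Filter Topology Pool.Agent.helper83.SC Pool.Agent.helper69.SN

set_option linter.unusedVariables false

namespace Pool.Agent.helper40.SN

/-- Bound for a convex function on the ball of radius `2` by its values far away. -/
theorem dPOT_bound {m : ℕ} (hm : 1 ≤ m) {κ : E m → ℝ} (hκ : CV κ) {r B : ℝ} (hr : 0 < r)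
    (hB : ∀ x, r + 1 ≤ ‖x‖ → ‖x‖ ≤ r + 5 → κ x ≤ B) : ∀ x, ‖x‖ ≤ 2 → κ x ≤ B := by
  intro x hx
  obtain ⟨v, hv⟩ : ∃ v : E m, ‖v‖ = r + 3 := by
    have i₀ : Fin m := ⟨0, hm⟩
    refine ⟨EuclideanSpace.single i₀ (r + 3), ?_⟩
    rw [PiLp.norm_single, Real.norm_eq_abs, abs_of_pos (by linarith)]
  have h1 : κ (x + v) ≤ B := by
    apply hB
    · have := norm_sub_le (x + v) x
      rw [add_sub_cancel_left, hv] at this
      linarith
    · have := norm_add_le x v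
      linarith
  have h2 : κ (x - v) ≤ B := by
    apply hB
    · have := norm_sub_le x (x - v)
      rw [sub_sub_cancel, hv] at this
      linarith
    · have := norm_sub_le x v
      linarith
  have h3 := hκ.2 (mem_univ (x + v)) (mem_univ (x - v)) (show (0 : ℝ) ≤ 1 / 2 by norm_num)
    (show (0 : ℝ) ≤ 1 / 2 by norm_num) (by norm_num)
  have h4 : (1 / 2 : ℝ) • (x + v) + (1 / 2 : ℝ) • (x - v) = x := by
    rw [← smul_add]
    have : x + v + (x - v) = (2 : ℝ) • x := by rw [two_smul]; abel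
    rw [this, smul_smul]
    norm_num
  rw [h4] at h3
  simp only [smul_eq_mul] at h3
  linarith

theorem dPOT (hCLO : aCLO_stmt) (haPSD : aPSD_stmt) (hCLS : bCLS_stmt) (hGEO : dGEO_stmt)
    (hBND : dBND_stmt) (hLIP : dLIP_stmt) (hWQ : dWQ_stmt)
    (hREG : Pool.Agent.helper28.SN.cREG_stmt) (hRMX : Pool.Agent.helper28.SN.cRMX_stmt)
    (hLOC : Pool.Agent.helper28.SN.cLOC_stmt) (hP : hess_psd_stmt) (hAd : hess_add_stmt)
    (hSm : hess_smul_stmt) (hSu : hess_sum_stmt) : dPOT_stmt := by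
  classical
  intro m n S D h r hm hr hh hlow
  obtain ⟨δ₀, η₀, R₀, hδ₀, hη₀, hlow⟩ := hlow
  obtain ⟨L, hL1, hL⟩ := hBND S ∅ D h hh (r + 5)
  obtain ⟨θ, hθ⟩ := hREG
  obtain ⟨hQs, hQp, hQ0, -, hQle, hTo, hTn, -, -⟩ := hGEO D
  set L₁ : ℝ := (r + 5) ^ 2 + L with hL₁
  have hL₁1 : 1 ≤ L₁ := by nlinarith [sq_nonneg (r + 5)]
  have hL₁0 : 0 < L₁ := by linarith
  set δ : ℝ := min 1 (min (δ₀ / 4) (δ₀ / (8 * L₁))) with hδdef
  have hδ : 0 < δ := by
    refine lt_min one_pos (lt_min (by linarith) (by positivity))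
  have hδ1 : δ ≤ 1 := min_le_left _ _
  have hδ2 : δ ≤ δ₀ / 4 := (min_le_right _ _).trans (min_le_left _ _)
  have hδ3 : δ ≤ δ₀ / (8 * L₁) := (min_le_right _ _).trans (min_le_right _ _)
  refine ⟨δ, min η₀ 1, max R₀ (r + 5), hδ, lt_min hη₀ one_pos, ?_⟩
  intro a ha
  have hsm : ∀ i, SmC (a i) := ha.1
  have hw0 : δ₀ ≤ wf S D r a 0 := hlow a ⟨ha.1, fun i x hx =>
    (ha.2 i x (hx.trans (le_max_left _ _))).trans (min_le_left _ _)⟩
  have hbd := hL a ⟨ha.1, fun i x hx =>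
    (ha.2 i x (hx.trans (le_max_right _ _))).trans (min_le_right _ _)⟩
  have hsum : ∀ x, ‖x‖ ≤ r + 5 → |∑ i ∈ S, a i x| ≤ L := by
    intro x hx
    have := (hbd x hx).2.2.1
    simpa using this
  obtain ⟨hwc, hw1, hw2, hw3, -⟩ := hWQ S D r a hm hsm
  have hwt : ∀ i : Fin n, 0 ≤ wt S 1 ∅ 0 i := by
    intro i
    unfold wt
    split_ifs <;> norm_num
  have hpsd : ∀ x : E m, Psd (hs a (wt S 1 ∅ 0) x) := fun x => dCOM_psd hP hsm hwt x
  have hκcv : CV (fun y => wf S D r a y + ∑ i ∈ S, a i y) :=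
    ((hCLS (fun y => hs a (wt S 1 ∅ 0) y) hpsd).2.1 _ hw3).1
  -- `∑ a` as a smooth convex function
  have hsS : SmC (fun x => ∑ i ∈ S, a i x) := by
    have := dCOM_smc_sum hsm (c := fun _ => (1 : ℝ)) S (fun _ _ => zero_le_one)
    simpa using this
  -- bounds on the ball of radius 2
  have hκle : ∀ x, ‖x‖ ≤ 2 → wf S D r a x + ∑ i ∈ S, a i x ≤ L₁ := by
    refine dPOT_bound hm hκcv hr ?_
    intro x hx1 hx2
    have hxT : x ∉ Tube D r := fun hx => by
      have := hTn r x hx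
      linarith
    have h1 := hw2 x hxT
    have h2 := (abs_le.1 (hsum x hx2)).2
    have h3 := hQle x
    have h4 : ‖x‖ ^ 2 ≤ (r + 5) ^ 2 := pow_le_pow_left₀ (norm_nonneg _) hx2 2
    simp only [hL₁]
    linarith
  have hκabs : ∀ x : E m, ‖x‖ ≤ 1 + 1 → |wf S D r a x + ∑ i ∈ S, a i x| ≤ L₁ := by
    intro x hx
    have hx2 : ‖x‖ ≤ 2 := by linarith
    rw [abs_le]
    refine ⟨?_, hκle x hx2⟩
    have h1 := hw1 x
    have h2 := hQ0 x
    have h3 := (abs_le.1 (hsum x (by linarith))).1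
    have h4 : L ≤ L₁ := by
      simp only [hL₁]
      nlinarith [sq_nonneg (r + 5)]
    linarith
  have hSabs : ∀ x : E m, ‖x‖ ≤ 1 + 1 → |∑ i ∈ S, a i x| ≤ L₁ := by
    intro x hx
    have h3 := hsum x (by linarith)
    have h4 : L ≤ L₁ := by
      simp only [hL₁]
      nlinarith [sq_nonneg (r + 5)]
    linarith
  have hl1 := hLIP _ hκcv 1 1 L₁ one_pos hκabs
  have hl2 := hLIP _ hsS.2 1 1 L₁ one_pos hSabs
  have hwlow : ∀ x : E m, ‖x‖ ≤ δ → δ₀ / 2 ≤ wf S D r a x := by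
    intro x hx
    have hx1 : ‖x‖ ≤ 1 := hx.trans hδ1
    have h0 : ‖(0 : E m)‖ ≤ 1 := by simp
    have h1 := hl1 0 x h0 hx1
    have h2 := hl2 0 x h0 hx1
    rw [zero_sub, norm_neg, div_one] at h1 h2
    have h3 := (abs_le.1 h1).2
    have h4 := (abs_le.1 h2).1
    have h5 : ‖x‖ ≤ δ₀ / (8 * L₁) := hx.trans hδ3
    have h6 : 8 * L₁ * ‖x‖ ≤ δ₀ := by
      rw [le_div_iff₀ (by positivity)] at h5
      linarith
    linarith
  -- the approximation
  set ε : ℝ := δ₀ / 12 with hε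
  have hε0 : 0 < ε := by
    simp only [hε]
    linarith
  obtain ⟨κ', hκ's, hκ'1, hκ'2⟩ := hw3 (r + 3) ε hε0
  -- the function `u`
  set u : E m → ℝ := fun x => κ' x + ((-1) * ∑ i ∈ S, a i x) + (-(2 * ε)) with hu
  have huS : ContDiff ℝ ∞ (fun x => (-1 : ℝ) * ∑ i ∈ S, a i x) := contDiff_const.mul hsS.1
  have hus : ContDiff ℝ ∞ u := (hκ's.1.add huS).add contDiff_const
  have hconst : ∀ (c : ℝ) (x : E m), hess (fun _ : E m => c) x = 0 := by
    intro c x
    ext i j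
    unfold hess pd
    simp
  have huh : ∀ x, hess u x = hess κ' x - ∑ i ∈ S, hess (a i) x := by
    intro x
    rw [hu, hAd (hκ's.1.add huS) contDiff_const x, hAd hκ's.1 huS x, hSm hsS.1,
      hSu S (fun i => (hsm i).1) x, hconst]
    simp [sub_eq_add_neg]
  have huG : ∀ x, ‖x‖ ≤ r + 3 → hess u x ∈ GG (hs a (wt S 1 ∅ 0) x) := by
    intro x hx
    have h1 := hκ'2 x hx
    have h3 : ∑ i, hs a (wt S 1 ∅ 0) x i = ∑ i ∈ S, hess (a i) x :=
      dCOM_sum_one S (fun i => hess (a i) x)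
    rw [h3] at h1
    rw [huh]
    exact h1
  have hule : ∀ x, ‖x‖ ≤ r + 3 → u x ≤ wf S D r a x - ε := by
    intro x hx
    have h1 := (abs_le.1 (hκ'1 x hx)).2
    simp only [hu]
    linarith
  have huge : ∀ x, ‖x‖ ≤ r + 3 → wf S D r a x - 3 * ε ≤ u x := by
    intro x hx
    have h1 := (abs_le.1 (hκ'1 x hx)).1
    simp only [hu]
    linarith
  have hQG : ∀ x, hess (Qf D) x ∈ GG (hs a (wt S 1 ∅ 0) x) := fun x =>
    haPSD _ (hpsd x) _ (hQp x)
  obtain ⟨hrs, hrv, hr1, hr2, hrh⟩ := hRMX θ ε u (Qf D) hθ hε0 hus hQs.1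
  -- the potential
  set ψ : E m → ℝ := fun x =>
    if ‖x‖ < r + 3 then Pool.Agent.helper28.SN.rmx θ ε u (Qf D) x else Qf D x with hψ
  have hψ1 : ∀ x, ‖x‖ < r + 3 → ψ x = Pool.Agent.helper28.SN.rmx θ ε u (Qf D) x := by
    intro x hx
    simp only [hψ, if_pos hx]
  have hψT : ∀ x, x ∉ Tube D r → ψ x = Qf D x := by
    intro x hx
    by_cases h1 : ‖x‖ < r + 3
    · rw [hψ1 x h1]
      apply hr1
      have h2 := hule x h1.le
      rw [hw2 x hx] at h2
      exact h2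
    · simp only [hψ, if_neg h1]
  have hψ2 : ∀ x, r + 1 < ‖x‖ → ψ x = Qf D x := fun x hx =>
    hψT x fun hxT => by
      have := hTn r x hxT
      linarith
  have hev1 : ∀ x, ‖x‖ < r + 3 →
      ∀ᶠ y in 𝓝 x, ψ y = Pool.Agent.helper28.SN.rmx θ ε u (Qf D) y := by
    intro x hx
    have : {y : E m | ‖y‖ < r + 3} ∈ 𝓝 x :=
      (isOpen_lt continuous_norm continuous_const).mem_nhds hx
    filter_upwards [this] with y hy using hψ1 y hy
  have hev2 : ∀ x, r + 1 < ‖x‖ → ∀ᶠ y in 𝓝 x, ψ y = Qf D y := by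
    intro x hx
    have : {y : E m | r + 1 < ‖y‖} ∈ 𝓝 x :=
      (isOpen_lt continuous_const continuous_norm).mem_nhds hx
    filter_upwards [this] with y hy using hψ2 y hy
  refine ⟨ψ, ?_, ?_, ?_, ?_⟩
  · rw [contDiff_iff_contDiffAt]
    intro x
    by_cases hx : ‖x‖ < r + 3
    · exact (hrs.contDiffAt (x := x)).congr_of_eventuallyEq (hev1 x hx)
    · exact (hQs.1.contDiffAt (x := x)).congr_of_eventuallyEq (hev2 x (by linarith [not_lt.1 hx]))
  · intro x
    by_cases hx : ‖x‖ < r + 3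
    · rw [hLOC ψ _ x (hev1 x hx)]
      obtain ⟨t, ht0, ht1, ht⟩ := hrh x
      have hconv := (hCLO _ (hpsd x)).1
      have h1 : (1 - t) • hess (Qf D) x + t • hess u x ∈ GG (hs a (wt S 1 ∅ 0) x) :=
        hconv (hQG x) (huG x hx.le) (by linarith) ht0 (by ring)
      have h2 := (hCLO _ (hpsd x)).2.1 _ _ h1 ht
      rw [add_sub_cancel] at h2
      exact h2
    · rw [hLOC ψ _ x (hev2 x (by linarith [not_lt.1 hx]))]
      exact hQG x
  · intro x hx
    exact (hψT x hx).le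
  · intro x hx
    have hx3 : ‖x‖ < r + 3 := by linarith
    rw [hψ1 x hx3]
    have h1 := (le_max_left _ _).trans (hrv x).1
    have h2 := huge x hx3.le
    have h3 := hwlow x hx
    have h4 : ε * 12 = δ₀ := by
      simp only [hε]
      ring
    linarith

end Pool.Agent.helper40.SN
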